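import Pool.Agent.Helper60.RT.Defs
import Pool.Agent.Helper92.LA.D3
import Pool.Agent.Helper75.TW.Main

/-!
# Project RT: block F, from the moments to the lattice points
-/

open MeasureTheory Real Set Filter Topology

set_option autoImplicit false

namespace Pool.Agent.Helper60.RT

open Pool.Agent.Helper22.AE
open Pool.Agent.Helper22.AC (cntc ga)
open Pool.Agent.Helper92.GC (dt tp Tq uu tt arc dd sqa m6)
open Pool.Agent.Helper92.DT (m12 IsMul12)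
open Pool.Agent.Helper60.LT (Tf xf yf df vf fr ac co Cut BB)
open Pool.Agent.Helper60.QL (nm pA)
open Pool.Agent.Helper92.LA (JJ HL WL dl fdet_dl lcnt lcnt_eq lcnt_swap m12_cont_coef)
open Pool.Agent.Helper22.LP (fdet Hf dom_lin area_lin fk fv nr hom nr_eq wr)
open Pool.Agent.Helper75.TW (TB TB_pos J20 isSupp_one frame_core ldisc ldisc_eq)

/-- the moment of the member `s` as a real integral -/
private noncomputable def W92 (e : (ℝ × ℝ) × (ℝ × ℝ)) (B X : ℝ) (N : ℕ) (s : ℝ) : ℝ := ∫ r in Icc (X / B) (B * X), mr (sqa N) r (st s e)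

private theorem mr_nonneg92 (S : Finset (ℤ × ℤ)) (r : ℝ) (f : (ℝ × ℝ) × (ℝ × ℝ)) : 0 ≤ mr S r f := by
  unfold mr m12
  exact integral_nonneg fun _ => by positivity

private theorem mr_cont92 (e : (ℝ × ℝ) × (ℝ × ℝ)) (N : ℕ) : Continuous fun q : ℝ × ℝ => mr (sqa N) q.2 (st q.1 e) := by
  unfold mr
  refine m12_cont_coef (sqa N) (fun (q : ℝ × ℝ) k => ee (q.2 * nm (vf (st q.1 e) k))) fun k _ => ?_
  refine ee_cont.comp ?_
  unfold nm vf st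
  fun_prop

private theorem mr_cont_r92 (f : (ℝ × ℝ) × (ℝ × ℝ)) (N : ℕ) : Continuous fun r : ℝ => mr (sqa N) r f := by
  unfold mr
  refine m12_cont_coef (sqa N) (fun (r : ℝ) k => ee (r * nm (vf f k))) fun k _ => ?_
  exact ee_cont.comp (continuous_id.mul continuous_const)

private theorem JJ_cont92 {h : ℝ → ℝ × ℝ → ℝ} (hc : Continuous fun q : ℝ × (ℝ × ℝ) => h q.1 q.2) (f : (ℝ × ℝ) × (ℝ × ℝ)) (X : ℝ) (N : ℕ) :
    Continuous fun α : ℝ => JJ f (h α) X N := by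
  have hpr : Continuous fun α : ℝ => ((f, α) : ((ℝ × ℝ) × (ℝ × ℝ)) × ℝ) := continuous_const.prodMk continuous_id
  have h3 := (Pool.Agent.Helper75.TW.mm_JJ.cont h hc X N).comp hpr
  have h4 : (fun α : ℝ => JJ f (h α) X N) = (fun q : ((ℝ × ℝ) × (ℝ × ℝ)) × ℝ => JJ q.1 (h q.2) X N) ∘ fun α : ℝ => ((f, α) : ((ℝ × ℝ) × (ℝ × ℝ)) × ℝ) := by
    funext α
    rfl
  rw [h4]
  exact h3

private theorem W_cont92 (e : (ℝ × ℝ) × (ℝ × ℝ)) (B X : ℝ) (N : ℕ) : Continuous (W92 e B X N) := by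
  unfold W92
  exact continuous_parametric_integral_of_continuous (f := fun (s : ℝ) (r : ℝ) => mr (sqa N) r (st s e)) (mr_cont92 e N) isCompact_Icc

private theorem W_nonneg92 (e : (ℝ × ℝ) × (ℝ × ℝ)) (B X : ℝ) (N : ℕ) (s : ℝ) : 0 ≤ W92 e B X N s :=
  integral_nonneg fun _ => mr_nonneg92 _ _ _

private theorem RI_eq92 (e : (ℝ × ℝ) × (ℝ × ℝ)) (B X : ℝ) (N : ℕ) :
    RI e B X (sqa N) = ∫⁻ s in Icc B⁻¹ B, ENNReal.ofReal (W92 e B X N s) := by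
  unfold RI
  refine lintegral_congr fun s => ?_
  unfold W92
  rw [ofReal_integral_eq_lintegral_ofReal]
  · exact (mr_cont_r92 (st s e) N).continuousOn.integrableOn_compact isCompact_Icc
  · exact Eventually.of_forall fun r => mr_nonneg92 _ _ _

private theorem FR_pos92 {X N : ℝ} (hX : 0 < X) (hN : 0 < N) : 0 < FR X N := by
  unfold FR
  positivity

private theorem geo92 {r : ℝ} (hr : 0 ≤ r) (hr1 : r < 1) (A : ℝ) : ∑' p : ℕ, ENNReal.ofReal (((p : ℝ) + 1) * (A * r ^ p)) < ⊤ := by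
  have h1 : ‖r‖ < 1 := by rwa [norm_of_nonneg hr]
  have h2 := summable_pow_mul_geometric_of_norm_lt_one 1 h1
  have h3 := summable_pow_mul_geometric_of_norm_lt_one 0 h1
  have h4 : Summable fun p : ℕ => ((p : ℝ) + 1) * (A * r ^ p) := by
    refine ((h2.add h3).mul_left A).congr fun p => ?_
    ring
  exact h4.tsum_ofReal_lt_top

/-- Borel-Cantelli over the stretches in a compact interval -/
private theorem bc92 (h : ∀ e : (ℝ × ℝ) × (ℝ × ℝ), 0 < df e → ∀ η B : ℝ, 0 < η → 1 ≤ B → ∃ C : ℝ, 1 ≤ C ∧ ∀ (X : ℝ) (N : ℕ), 1 ≤ X → 1 ≤ N → X ^ (1 / 10 : ℝ) ≤ N →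
      (N : ℝ) ≤ X ^ (4 / 9 + 1 / 1000 : ℝ) → RI e B X (sqa N) ≤ ENNReal.ofReal (C * X ^ η * FR X N))
    {e : (ℝ × ℝ) × (ℝ × ℝ)} (he : 0 < df e) {ε B : ℝ} (hε : 0 < ε) (hB : 1 ≤ B) :
    ∀ᵐ s ∂((volume : Measure ℝ).restrict (Icc B⁻¹ B)), ∃ C : ℝ, 0 ≤ C ∧ ∀ p n : ℕ, n ≤ p → ((2 : ℝ) ^ p) ^ (1 / 10 : ℝ) ≤ (2 : ℝ) ^ n →
      (2 : ℝ) ^ n ≤ ((2 : ℝ) ^ p) ^ (4 / 9 + 1 / 1000 : ℝ) → W92 e B ((2 : ℝ) ^ p) (2 ^ n) s ≤ C * (((2 : ℝ) ^ p) ^ ε * FR ((2 : ℝ) ^ p) ((2 : ℝ) ^ n)) := by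
  classical
  obtain ⟨C0, hC0, hm⟩ := h e he (ε / 2) B (by linarith) hB
  have hX0 : ∀ p : ℕ, (0 : ℝ) < 2 ^ p := fun p => by positivity
  have hX1 : ∀ p : ℕ, (1 : ℝ) ≤ 2 ^ p := fun p => one_le_pow₀ (by norm_num)
  have hN1 : ∀ n : ℕ, 1 ≤ 2 ^ n := fun n => Nat.one_le_two_pow
  have hNr : ∀ n : ℕ, ((2 ^ n : ℕ) : ℝ) = (2 : ℝ) ^ n := fun n => by push_cast; rfl
  obtain ⟨Q, hQ⟩ : ∃ Q : ℕ → ℕ → Prop, Q = fun p n => ((2 : ℝ) ^ p) ^ (1 / 10 : ℝ) ≤ (2 : ℝ) ^ n ∧ (2 : ℝ) ^ n ≤ ((2 : ℝ) ^ p) ^ (4 / 9 + 1 / 1000 : ℝ) := ⟨_, rfl⟩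
  obtain ⟨D, hD⟩ : ∃ D : ℕ → ℕ → ℝ, ∀ p n, D p n = ((2 : ℝ) ^ p) ^ ε * FR ((2 : ℝ) ^ p) ((2 : ℝ) ^ n) := ⟨_, fun _ _ => rfl⟩
  have hD0 : ∀ p n, 0 < D p n := by
    intro p n
    rw [hD]
    exact mul_pos (rpow_pos_of_pos (hX0 p) _) (FR_pos92 (hX0 p) (hX0 n))
  obtain ⟨r, hr⟩ : ∃ r : ℝ, r = (2 : ℝ) ^ (-(ε / 2)) := ⟨_, rfl⟩
  have hr0 : 0 ≤ r := by
    rw [hr]
    positivity
  have hr1 : r < 1 := by
    rw [hr]
    exact rpow_lt_one_of_one_lt_of_neg (by norm_num) (by linarith)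
  obtain ⟨G, hG⟩ : ∃ G : ℕ → ℕ → ℝ → ENNReal, ∀ p n s, G p n s = if Q p n then ENNReal.ofReal (W92 e B ((2 : ℝ) ^ p) (2 ^ n) s / D p n) else 0 := ⟨_, fun _ _ _ => rfl⟩
  have hmeas : ∀ p n, Measurable (G p n) := by
    intro p n
    by_cases hq : Q p n
    · have e1 : G p n = fun s => ENNReal.ofReal (W92 e B ((2 : ℝ) ^ p) (2 ^ n) s / D p n) := by
        funext s
        rw [hG, if_pos hq]
      rw [e1]
      exact ((W_cont92 e B _ _).div_const _).measurable.ennreal_ofReal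
    · have e1 : G p n = fun _ => 0 := by
        funext s
        rw [hG, if_neg hq]
      rw [e1]
      exact measurable_const
  have hint : ∀ p n, ∫⁻ s in Icc B⁻¹ B, G p n s ≤ ENNReal.ofReal (C0 * r ^ p) := by
    intro p n
    by_cases hq : Q p n
    · have e1 : ∀ s, G p n s = ENNReal.ofReal (1 / D p n) * ENNReal.ofReal (W92 e B ((2 : ℝ) ^ p) (2 ^ n) s) := by
        intro s
        rw [hG, if_pos hq, ← ENNReal.ofReal_mul (by have := hD0 p n; positivity)]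
        congr 1
        ring
      simp only [e1]
      rw [lintegral_const_mul _ (W_cont92 e B _ _).measurable.ennreal_ofReal, ← RI_eq92]
      rw [hQ] at hq
      have h3 := hm ((2 : ℝ) ^ p) (2 ^ n) (hX1 p) (hN1 n) (by rw [hNr]; exact hq.1) (by rw [hNr]; exact hq.2)
      refine (mul_le_mul_right h3 _).trans ?_
      rw [← ENNReal.ofReal_mul (by have := hD0 p n; positivity), hNr]
      refine ENNReal.ofReal_le_ofReal (le_of_eq ?_)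
      have h5 : ((2 : ℝ) ^ p) ^ (ε / 2) = r ^ p * ((2 : ℝ) ^ p) ^ ε := by
        rw [hr, ← rpow_natCast ((2 : ℝ) ^ (-(ε / 2))) p, ← rpow_mul (by norm_num), ← rpow_natCast 2 p, ← rpow_mul (by norm_num),
          ← rpow_mul (by norm_num), ← rpow_add (by norm_num)]
        congr 1
        ring
      have h8 := (FR_pos92 (hX0 p) (hX0 n)).ne'
      have h9 : ((2 : ℝ) ^ p) ^ ε ≠ 0 := (rpow_pos_of_pos (hX0 p) _).ne'
      rw [h5, hD, one_div, mul_inv]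
      calc (((2 : ℝ) ^ p) ^ ε)⁻¹ * (FR ((2 : ℝ) ^ p) ((2 : ℝ) ^ n))⁻¹ * (C0 * (r ^ p * ((2 : ℝ) ^ p) ^ ε) * FR ((2 : ℝ) ^ p) ((2 : ℝ) ^ n)) =
            C0 * r ^ p * ((((2 : ℝ) ^ p) ^ ε)⁻¹ * ((2 : ℝ) ^ p) ^ ε) * ((FR ((2 : ℝ) ^ p) ((2 : ℝ) ^ n))⁻¹ * FR ((2 : ℝ) ^ p) ((2 : ℝ) ^ n)) := by ring
        _ = C0 * r ^ p := by rw [inv_mul_cancel₀ h9, inv_mul_cancel₀ h8, mul_one, mul_one]
    · have e1 : ∀ s, G p n s = 0 := by
        intro s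
        rw [hG, if_neg hq]
      simp only [e1, lintegral_zero]
      exact bot_le
  -- the series
  obtain ⟨Φ, hΦ⟩ : ∃ Φ : ℝ → ENNReal, Φ = fun s => ∑' p : ℕ, ∑ n ∈ Finset.range (p + 1), G p n s := ⟨_, rfl⟩
  have hΦm : Measurable Φ := by
    rw [hΦ]
    exact Measurable.tsum fun p => Finset.measurable_sum _ fun n _ => hmeas p n
  have hΦi : ∫⁻ s in Icc B⁻¹ B, Φ s ≠ ⊤ := by
    rw [hΦ, lintegral_tsum (fun p => (Finset.measurable_sum _ fun n _ => hmeas p n).aemeasurable)]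
    refine ne_of_lt (lt_of_le_of_lt (ENNReal.tsum_le_tsum fun p => ?_) (geo92 hr0 hr1 C0))
    rw [lintegral_finsetSum _ fun n _ => hmeas p n]
    calc ∑ n ∈ Finset.range (p + 1), ∫⁻ s in Icc B⁻¹ B, G p n s
        ≤ ∑ _n ∈ Finset.range (p + 1), ENNReal.ofReal (C0 * r ^ p) := Finset.sum_le_sum fun n _ => hint p n
      _ = ENNReal.ofReal (((p : ℝ) + 1) * (C0 * r ^ p)) := by
          rw [Finset.sum_const, Finset.card_range, nsmul_eq_mul, ENNReal.ofReal_mul (show (0 : ℝ) ≤ (p : ℝ) + 1 by positivity),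
            ← Nat.cast_succ, ENNReal.ofReal_natCast]
  have h6 := ae_lt_top hΦm hΦi
  filter_upwards [h6] with s hs
  refine ⟨(Φ s).toReal, ENNReal.toReal_nonneg, fun p n hn hq1 hq2 => ?_⟩
  have hq : Q p n := by
    rw [hQ]
    exact ⟨hq1, hq2⟩
  have h7 : G p n s ≤ Φ s := by
    rw [hΦ]
    refine le_trans ?_ (ENNReal.le_tsum p)
    exact Finset.single_le_sum (f := fun n => G p n s) (fun _ _ => bot_le) (Finset.mem_range.2 (Nat.lt_succ_iff.2 hn))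
  rw [hG, if_pos hq] at h7
  have h8 : W92 e B ((2 : ℝ) ^ p) (2 ^ n) s / D p n ≤ (Φ s).toReal := by
    rw [← ENNReal.ofReal_le_iff_le_toReal hs.ne]
    exact h7
  rw [div_le_iff₀ (hD0 p n), hD] at h8
  exact h8

/-- almost every stretch -/
private theorem ae92 (h : ∀ e : (ℝ × ℝ) × (ℝ × ℝ), 0 < df e → ∀ η B : ℝ, 0 < η → 1 ≤ B → ∃ C : ℝ, 1 ≤ C ∧ ∀ (X : ℝ) (N : ℕ), 1 ≤ X → 1 ≤ N → X ^ (1 / 10 : ℝ) ≤ N →
      (N : ℝ) ≤ X ^ (4 / 9 + 1 / 1000 : ℝ) → RI e B X (sqa N) ≤ ENNReal.ofReal (C * X ^ η * FR X N))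
    {e : (ℝ × ℝ) × (ℝ × ℝ)} (he : 0 < df e) :
    ∀ᵐ s : ℝ, 0 < s → ∀ ε B₁ : ℝ, 0 < ε → ∃ B C : ℝ, 1 ≤ B ∧ B₁ ≤ B ∧ 0 ≤ C ∧ ∀ p n : ℕ, n ≤ p → ((2 : ℝ) ^ p) ^ (1 / 10 : ℝ) ≤ (2 : ℝ) ^ n →
      (2 : ℝ) ^ n ≤ ((2 : ℝ) ^ p) ^ (4 / 9 + 1 / 1000 : ℝ) → W92 e B ((2 : ℝ) ^ p) (2 ^ n) s ≤ C * (((2 : ℝ) ^ p) ^ ε * FR ((2 : ℝ) ^ p) ((2 : ℝ) ^ n)) := by
  have h1 : ∀ᵐ s : ℝ, ∀ (j m : ℕ), s ∈ Icc ((m : ℝ) + 1)⁻¹ ((m : ℝ) + 1) → ∃ C : ℝ, 0 ≤ C ∧ ∀ p n : ℕ, n ≤ p → ((2 : ℝ) ^ p) ^ (1 / 10 : ℝ) ≤ (2 : ℝ) ^ n →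
      (2 : ℝ) ^ n ≤ ((2 : ℝ) ^ p) ^ (4 / 9 + 1 / 1000 : ℝ) → W92 e ((m : ℝ) + 1) ((2 : ℝ) ^ p) (2 ^ n) s ≤
        C * (((2 : ℝ) ^ p) ^ (1 / ((j : ℝ) + 1)) * FR ((2 : ℝ) ^ p) ((2 : ℝ) ^ n)) := by
    rw [ae_all_iff]
    intro j
    rw [ae_all_iff]
    intro m
    have h2 := bc92 h he (ε := 1 / ((j : ℝ) + 1)) (B := (m : ℝ) + 1) (by positivity) (by have : (0 : ℝ) ≤ m := Nat.cast_nonneg m; linarith)
    exact (ae_restrict_iff' measurableSet_Icc).1 h2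
  filter_upwards [h1] with s hs hs0 ε B₁ hε
  obtain ⟨m, hm'⟩ := exists_nat_ge (max B₁ (max s s⁻¹))
  obtain ⟨j, hj⟩ := exists_nat_one_div_lt hε
  have m1 : B₁ ≤ m := (le_max_left _ _).trans hm'
  have m2 : s ≤ m := (le_max_left _ _).trans ((le_max_right _ _).trans hm')
  have m3 : s⁻¹ ≤ m := (le_max_right _ _).trans ((le_max_right _ _).trans hm')
  have m0 : (0 : ℝ) ≤ m := Nat.cast_nonneg m
  have hmem : s ∈ Icc ((m : ℝ) + 1)⁻¹ ((m : ℝ) + 1) := by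
    refine ⟨?_, by linarith⟩
    rw [inv_le_comm₀ (by positivity) hs0]
    linarith
  obtain ⟨C, hC, h2⟩ := hs j m hmem
  refine ⟨(m : ℝ) + 1, C, by linarith, by linarith, hC, fun p n hn hq1 hq2 => (h2 p n hn hq1 hq2).trans ?_⟩
  have hX1 : (1 : ℝ) ≤ 2 ^ p := one_le_pow₀ (by norm_num)
  refine mul_le_mul_of_nonneg_left (mul_le_mul_of_nonneg_right ?_ (FR_pos92 (by positivity) (by positivity)).le) hC
  exact rpow_le_rpow_of_exponent_le hX1 hj.le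

/-- the moments `JJ` of the multiples of the norm -/
private theorem JJ_le92 {e : (ℝ × ℝ) × (ℝ × ℝ)} {s a σ₀ B X : ℝ} (hσ : 0 < σ₀) (ha : σ₀ ≤ a) (ha1 : a ≤ 1) (hB : 8 ≤ B) (hBσ : 4 ≤ B * σ₀) (hX : 1 ≤ X)
    {h : ℝ × ℝ → ℝ} (hh : ∀ v, h v = a * √(v.1 ^ 2 + v.2 ^ 2)) (N : ℕ) : JJ (st s e) h X N ≤ σ₀⁻¹ * W92 e B X N s := by
  have ha0 : 0 < a := hσ.trans_le ha
  obtain ⟨F, hF⟩ : ∃ F : ℝ → ℝ, F = fun r => mr (sqa N) r (st s e) := ⟨_, rfl⟩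
  have hFc : Continuous F := by
    rw [hF]
    exact mr_cont_r92 (st s e) N
  have hF0 : ∀ r, 0 ≤ F r := by
    intro r
    rw [hF]
    exact mr_nonneg92 _ _ _
  have e1 : JJ (st s e) h X N = ∫ r in Icc (X / 4) (8 * X), F (a * r) := by
    unfold JJ
    refine integral_congr_ae (Eventually.of_forall fun r => ?_)
    simp only
    rw [hF]
    unfold mr
    congr 1
    funext k
    have e2 : fk (st s e) k = vf (st s e) k := rfl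
    rw [hh, e2]
    unfold nm
    rw [← mul_assoc, mul_comm r a]
  have hle : X / 4 ≤ 8 * X := by linarith
  have e3 : ∫ r in Icc (X / 4) (8 * X), F (a * r) = a⁻¹ * ∫ r in Icc (a * (X / 4)) (a * (8 * X)), F r := by
    rw [integral_Icc_eq_integral_Ioc, ← intervalIntegral.integral_of_le hle, intervalIntegral.integral_comp_mul_left F ha0.ne',
      integral_Icc_eq_integral_Ioc, ← intervalIntegral.integral_of_le (mul_le_mul_of_nonneg_left hle ha0.le), smul_eq_mul]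
  rw [e1, e3]
  have h1 : ∫ r in Icc (a * (X / 4)) (a * (8 * X)), F r ≤ W92 e B X N s := by
    unfold W92
    rw [hF] at hFc hF0 ⊢
    refine setIntegral_mono_set (hFc.continuousOn.integrableOn_compact isCompact_Icc) (Eventually.of_forall hF0) (Eventually.of_forall ?_)
    intro r hr
    have hB0 : 0 < B := by linarith
    refine ⟨?_, ?_⟩
    · refine le_trans ?_ hr.1
      rw [div_le_iff₀ hB0]
      nlinarith [mul_le_mul_of_nonneg_right ha (show 0 ≤ X / 4 * B by positivity)]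
    · refine hr.2.trans ?_
      nlinarith
  have h2 : a⁻¹ ≤ σ₀⁻¹ := inv_anti₀ hσ ha
  exact mul_le_mul h2 h1 (integral_nonneg hF0) (by positivity)

private theorem k0_mass92 {α₀ β : ℝ} (h0 : 0 < α₀) (h1 : α₀ < π / 2) (hβ : 0 < β) : ∫ α in Icc (-α₀) α₀, k0 β α ≤ 20 := by
  have hpi := Real.pi_pos
  have h2 := k0_int hβ
  rw [intervalIntegral.integral_of_le (by linarith)] at h2
  refine le_trans (setIntegral_mono_set ?_ (Eventually.of_forall (Pool.Agent.Helper22.OV.o3_k0_nonneg hβ)) (Eventually.of_forall ?_)) h2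
  · rw [← integrableOn_Icc_iff_integrableOn_Ioc]
    exact (Pool.Agent.Helper22.OV.o3_k0_cont hβ).continuousOn.integrableOn_compact isCompact_Icc
  · intro x hx
    exact ⟨by linarith [hx.1], by linarith [hx.2]⟩

private theorem FR_TB92 {X N e : ℝ} (hX : 1 ≤ X) (hN : 1 ≤ N) (he : 0 < e) (hν : X ^ (1 / 9 - e / 6 : ℝ) ≤ N) :
    FR X N ≤ 2 * (X ^ (e / 2) * TB 12 (5 / 9) X N) := by
  have hX0 : 0 < X := by linarith
  have hN0 : 0 < N := by linarith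
  have e1 : TB 12 (5 / 9) X N = X ^ (2 / 3 : ℝ) * N ^ 15 := by
    unfold TB
    rw [mul_pow, ← rpow_natCast (X ^ (5 / 9 - 1 / 2 : ℝ)), ← rpow_mul hX0.le, ← rpow_natCast (N ^ (3 / 2 : ℝ)), ← rpow_mul hN0.le,
      show ((5 / 9 - 1 / 2 : ℝ) * ((12 : ℕ) : ℝ)) = 2 / 3 by norm_num, show ((3 / 2 : ℝ) * ((12 : ℕ) : ℝ)) = ((18 : ℕ) : ℝ) by norm_num, rpow_natCast]
    field_simp
  have e2 : X * X ^ (-(1 / 3) : ℝ) = X ^ (2 / 3 : ℝ) := by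
    nth_rewrite 1 [← rpow_one X]
    rw [← rpow_add hX0]
    norm_num
  have h1 : X ≤ X ^ (e / 2) * X ^ (2 / 3 : ℝ) * N ^ 3 := by
    have h2 : (X ^ (1 / 9 - e / 6 : ℝ)) ^ 3 ≤ N ^ 3 := pow_le_pow_left₀ (by positivity) hν 3
    have h3 : (X ^ (1 / 9 - e / 6 : ℝ)) ^ 3 = X ^ (1 / 3 - e / 2 : ℝ) := by
      rw [← rpow_natCast, ← rpow_mul hX0.le]
      congr 1
      push_cast
      ring
    rw [h3] at h2
    calc X = X ^ (e / 2) * X ^ (2 / 3 : ℝ) * X ^ (1 / 3 - e / 2 : ℝ) := by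
          rw [← rpow_add hX0, ← rpow_add hX0]
          rw [show e / 2 + 2 / 3 + (1 / 3 - e / 2) = 1 by ring, rpow_one]
      _ ≤ X ^ (e / 2) * X ^ (2 / 3 : ℝ) * N ^ 3 := mul_le_mul_of_nonneg_left h2 (by positivity)
  have h2 : 1 ≤ X ^ (e / 2) := one_le_rpow hX (by linarith)
  rw [e1]
  unfold FR
  have h3 := mul_le_mul_of_nonneg_right h1 (show 0 ≤ N ^ 12 by positivity)
  have h4 := mul_le_mul_of_nonneg_right h2 (show 0 ≤ X ^ (2 / 3 : ℝ) * N ^ 15 by positivity)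
  have e3 : X * (N ^ 12 + N ^ 15 * X ^ (-(1 / 3) : ℝ)) = X * N ^ 12 + (X * X ^ (-(1 / 3) : ℝ)) * N ^ 15 := by ring
  rw [e3, e2]
  have e4 : X ^ (e / 2) * X ^ (2 / 3 : ℝ) * N ^ 3 * N ^ 12 = X ^ (e / 2) * (X ^ (2 / 3 : ℝ) * N ^ 15) := by ring
  linarith

/-- one frame: the lattice points in the ellipses -/
private theorem frame92 {e : (ℝ × ℝ) × (ℝ × ℝ)} {s : ℝ} (hd : fdet (st s e) ≠ 0)
    (hs : ∀ ε B₁ : ℝ, 0 < ε → ∃ B C : ℝ, 1 ≤ B ∧ B₁ ≤ B ∧ 0 ≤ C ∧ ∀ p n : ℕ, n ≤ p → ((2 : ℝ) ^ p) ^ (1 / 10 : ℝ) ≤ (2 : ℝ) ^ n →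
      (2 : ℝ) ^ n ≤ ((2 : ℝ) ^ p) ^ (4 / 9 + 1 / 1000 : ℝ) → W92 e B ((2 : ℝ) ^ p) (2 ^ n) s ≤ C * (((2 : ℝ) ^ p) ^ ε * FR ((2 : ℝ) ^ p) ((2 : ℝ) ^ n)))
    {ε : ℝ} (hε : 0 < ε) : ∃ C : ℝ, ∀ R : ℝ, 1 ≤ R → ∀ c : ℝ × ℝ,
      |cntc (Hf (fun _ => 1) (st s e)) c R - area (Hf (fun _ => 1) (st s e)) * R ^ 2| ≤ C * R ^ (5 / 9 + ε) := by
  obtain ⟨α₀, c₁, Bf, ha0, ha1, hc₁, hc₁1, hBf, hjc, hfam⟩ := Pool.Agent.Helper92.LA.fam isSupp_one contDiff_const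
  have hcos : 0 < cos α₀ := Real.cos_pos_of_mem_Ioo ⟨by linarith, ha1⟩
  obtain ⟨σ₀, hσ₀⟩ : ∃ σ₀ : ℝ, σ₀ = cos α₀ := ⟨_, rfl⟩
  have hσ : 0 < σ₀ := by rwa [hσ₀]
  have hP : ∀ α ∈ Icc (-α₀) α₀, ∃ a : ℝ, σ₀ ≤ a ∧ a ≤ 1 ∧ ∀ v : ℝ × ℝ, hom (ga (fun _ => 1) α) v = a * √(v.1 ^ 2 + v.2 ^ 2) := by
    intro α hα
    refine ⟨cos α, ?_, Real.cos_le_one α, fun v => ?_⟩
    · rw [hσ₀, ← Real.cos_abs α]
      exact Real.cos_le_cos_of_nonneg_of_le_pi (abs_nonneg α) (by linarith [Real.pi_pos]) (abs_le.2 hα)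
    · unfold hom ga
      rw [nr_eq]
      simp only [deriv_const', zero_mul, sub_zero, one_mul]
      ring
  obtain ⟨e', he'⟩ : ∃ e' : ℝ, e' = min (ε / 2) (1 / 1000) := ⟨_, rfl⟩
  have he0 : 0 < e' := by
    rw [he']
    exact lt_min (by linarith) (by norm_num)
  have he1 : e' ≤ 1 / 1000 := by
    rw [he']
    exact min_le_right _ _
  have he2 : 2 * e' ≤ ε := by
    have : e' ≤ ε / 2 := by
      rw [he']
      exact min_le_left _ _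
    linarith
  obtain ⟨B, C₀, hB1, hB, hC₀, hW⟩ := hs (e' / 2) (max 8 (4 / σ₀)) (by linarith)
  have hB8 : 8 ≤ B := (le_max_left _ _).trans hB
  have hBσ : 4 ≤ B * σ₀ := by
    have h1 : 4 / σ₀ ≤ B := (le_max_right _ _).trans hB
    rwa [div_le_iff₀ hσ] at h1
  obtain ⟨K, hK⟩ : ∃ K : ℝ, K = ∫ α in Icc (-α₀) α₀, k0 (1 / sqrt ((2 : ℝ) ^ 0 * ((2 ^ 0 : ℕ) : ℝ))) α * J20 (st s e) (hom (ga (fun _ => 1) α)) ((2 : ℝ) ^ 0) (2 ^ 0) := ⟨_, rfl⟩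
  obtain ⟨C₁, hC₁⟩ : ∃ C₁ : ℝ, C₁ = 20 * (σ₀⁻¹ * (C₀ * 2)) + |K| := ⟨_, rfl⟩
  have hC₁0 : 0 ≤ C₁ := by
    rw [hC₁]
    positivity
  have hβ : ∀ p n : ℕ, 0 < 1 / sqrt ((2 : ℝ) ^ p * ((2 ^ n : ℕ) : ℝ)) := by
    intro p n
    have : (0 : ℝ) < ((2 ^ n : ℕ) : ℝ) := by exact_mod_cast Nat.one_le_two_pow
    positivity
  obtain ⟨C, hC⟩ := frame_core isSupp_one ha0 ha1 hjc (fun α hα => (hfam α hα).2) hd (θ := 5 / 9) (ν₂ := 1 / 9 - e' / 6) (ν₃ := 4 / 9 + 1 / 1000)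
    (by norm_num) (by norm_num) he0 (by linarith) (by linarith) hC₁0
    (by
      intro p n hn q1 q2
      have hp : p = 0 := by
        by_contra hp
        have h1 : (1 : ℝ) < 2 ^ p := one_lt_pow₀ (by norm_num) hp
        have h2 := q1.trans q2
        have h3 : ((2 : ℝ) ^ p) ^ (1 / 9 - e' / 6 : ℝ) < ((2 : ℝ) ^ p) ^ (2 * (5 / 9) - 1 : ℝ) :=
          rpow_lt_rpow_of_exponent_lt h1 (by linarith)
        linarith
      have hn0 : n = 0 := by omega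
      subst hp hn0
      rw [← hK]
      have e1 : TB 20 (5 / 9) ((2 : ℝ) ^ 0) ((2 : ℝ) ^ 0) = 1 := by
        unfold TB
        norm_num
      rw [e1]
      simp only [pow_zero, one_rpow, mul_one]
      rw [hC₁]
      have h1 := le_abs_self K
      have h2 : 0 ≤ 20 * (σ₀⁻¹ * (C₀ * 2)) := by positivity
      linarith)
    (by
      intro p n hn q1 q2
      have hX1 : (1 : ℝ) ≤ 2 ^ p := one_le_pow₀ (by norm_num)
      have hN1 : (1 : ℝ) ≤ 2 ^ n := one_le_pow₀ (by norm_num)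
      have q3 : ((2 : ℝ) ^ p) ^ (1 / 10 : ℝ) ≤ (2 : ℝ) ^ n := (rpow_le_rpow_of_exponent_le hX1 (by linarith)).trans q1
      have h1 := hW p n hn q3 q2
      have h2 := FR_TB92 hX1 hN1 he0 q1
      have hT := (TB_pos (q := 12) (θ := 5 / 9) (show (0 : ℝ) < 2 ^ p by positivity) (show (0 : ℝ) < 2 ^ n by positivity)).le
      have hXe : 0 ≤ ((2 : ℝ) ^ p) ^ (e' / 2) := by positivity
      have h3 : W92 e B ((2 : ℝ) ^ p) (2 ^ n) s ≤ C₀ * 2 * (((2 : ℝ) ^ p) ^ e' * TB 12 (5 / 9) ((2 : ℝ) ^ p) (2 ^ n)) := by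
        refine h1.trans ?_
        have h4 := mul_le_mul_of_nonneg_left (mul_le_mul_of_nonneg_left h2 hXe) hC₀
        refine h4.trans (le_of_eq ?_)
        have h5 : ((2 : ℝ) ^ p) ^ e' = ((2 : ℝ) ^ p) ^ (e' / 2) * ((2 : ℝ) ^ p) ^ (e' / 2) := by
          rw [← rpow_add (by positivity)]
          congr 1
          ring
        rw [h5]
        ring
      have h4 : ∀ α ∈ Icc (-α₀) α₀, k0 (1 / sqrt ((2 : ℝ) ^ p * ((2 ^ n : ℕ) : ℝ))) α * JJ (st s e) (hom (ga (fun _ => 1) α)) ((2 : ℝ) ^ p) (2 ^ n) ≤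
          k0 (1 / sqrt ((2 : ℝ) ^ p * ((2 ^ n : ℕ) : ℝ))) α * (σ₀⁻¹ * W92 e B ((2 : ℝ) ^ p) (2 ^ n) s) := by
        intro α hα
        obtain ⟨a, b1, b2, b3⟩ := hP α hα
        exact mul_le_mul_of_nonneg_left (JJ_le92 hσ b1 b2 hB8 hBσ hX1 b3 (2 ^ n)) (Pool.Agent.Helper22.OV.o3_k0_nonneg (hβ p n) α)
      have hk := Pool.Agent.Helper22.OV.o3_k0_cont (hβ p n)
      have hJc := JJ_cont92 (h := fun α => hom (ga (fun _ => 1) α)) hjc (st s e) ((2 : ℝ) ^ p) (2 ^ n)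
      have h5 : ∫ α in Icc (-α₀) α₀, k0 (1 / sqrt ((2 : ℝ) ^ p * ((2 ^ n : ℕ) : ℝ))) α * JJ (st s e) (hom (ga (fun _ => 1) α)) ((2 : ℝ) ^ p) (2 ^ n) ≤
          (∫ α in Icc (-α₀) α₀, k0 (1 / sqrt ((2 : ℝ) ^ p * ((2 ^ n : ℕ) : ℝ))) α) * (σ₀⁻¹ * W92 e B ((2 : ℝ) ^ p) (2 ^ n) s) := by
        rw [← integral_mul_const]
        refine setIntegral_mono_on ?_ ?_ measurableSet_Icc h4
        · exact (hk.mul hJc).continuousOn.integrableOn_compact isCompact_Icc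
        · exact (hk.mul continuous_const).continuousOn.integrableOn_compact isCompact_Icc
      have h6 : 0 ≤ σ₀⁻¹ * W92 e B ((2 : ℝ) ^ p) (2 ^ n) s := mul_nonneg (by positivity) (W_nonneg92 _ _ _ _ _)
      have h7 := mul_le_mul_of_nonneg_right (k0_mass92 ha0 ha1 (hβ p n)) h6
      have h8 := mul_le_mul_of_nonneg_left (mul_le_mul_of_nonneg_left h3 (show 0 ≤ σ₀⁻¹ by positivity)) (show (0 : ℝ) ≤ 20 by norm_num)
      have h9 : 0 ≤ |K| * (((2 : ℝ) ^ p) ^ e' * TB 12 (5 / 9) ((2 : ℝ) ^ p) (2 ^ n)) := by positivity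
      rw [hC₁]
      refine (h5.trans (h7.trans h8)).trans ?_
      have e1 : 20 * (σ₀⁻¹ * (C₀ * 2 * (((2 : ℝ) ^ p) ^ e' * TB 12 (5 / 9) ((2 : ℝ) ^ p) (2 ^ n)))) =
        20 * (σ₀⁻¹ * (C₀ * 2)) * (((2 : ℝ) ^ p) ^ e' * TB 12 (5 / 9) ((2 : ℝ) ^ p) (2 ^ n)) := by ring
      rw [e1]
      linarith)
  refine ⟨|C|, fun R hR c => (hC R hR c).trans ?_⟩
  calc C * R ^ (5 / 9 + 2 * e') ≤ |C| * R ^ (5 / 9 + 2 * e') := mul_le_mul_of_nonneg_right (le_abs_self C) (by positivity)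
    _ ≤ |C| * R ^ (5 / 9 + ε) := mul_le_mul_of_nonneg_left (rpow_le_rpow_of_exponent_le hR (by linarith)) (abs_nonneg C)

/-- from the stretches of the dual lattice to the coefficients -/
private theorem inv92 {P : ℝ → Prop} (h : ∀ᵐ s : ℝ, 0 < s → P s) : ∀ᵐ α : ℝ, 0 < α → P (1 / √α) := by
  rw [ae_iff] at h ⊢
  have h1 : {α : ℝ | ¬(0 < α → P (1 / √α))} ⊆ (fun s : ℝ => (s ^ 2)⁻¹) '' {s : ℝ | ¬(0 < s → P s)} := by
    intro α hα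
    have hα' : ¬(0 < α → P (1 / √α)) := hα
    rw [Classical.not_imp] at hα'
    obtain ⟨h2, h3⟩ := hα'
    have h4 : 0 < √α := Real.sqrt_pos.2 h2
    refine ⟨1 / √α, ?_, ?_⟩
    · show ¬(0 < 1 / √α → P (1 / √α))
      rw [Classical.not_imp]
      exact ⟨by positivity, h3⟩
    · simp only
      rw [div_pow, one_pow, Real.sq_sqrt h2.le, one_div, inv_inv]
  refine measure_mono_null h1 ?_
  refine addHaar_image_eq_zero_of_differentiableOn_of_addHaar_eq_zero volume ?_ h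
  intro s hs
  have hs' : ¬(0 < s → P s) := hs
  rw [Classical.not_imp] at hs'
  have h5 : s ^ 2 ≠ 0 := by
    have := hs'.1
    positivity
  exact ((differentiableAt_id.pow 2).inv h5).differentiableWithinAt

/-- positive determinant -/
private theorem pos92 (h : ∀ e : (ℝ × ℝ) × (ℝ × ℝ), 0 < df e → ∀ η B : ℝ, 0 < η → 1 ≤ B → ∃ C : ℝ, 1 ≤ C ∧ ∀ (X : ℝ) (N : ℕ), 1 ≤ X → 1 ≤ N → X ^ (1 / 10 : ℝ) ≤ N →
      (N : ℝ) ≤ X ^ (4 / 9 + 1 / 1000 : ℝ) → RI e B X (sqa N) ≤ ENNReal.ofReal (C * X ^ η * FR X N)) (u v : ℝ × ℝ) (huv : 0 < u.1 * v.2 - u.2 * v.1) :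
    ∀ᵐ α : ℝ, 0 < α → ∀ ε : ℝ, 0 < ε → ∃ C : ℝ, ∀ R : ℝ, 1 ≤ R → ∀ c : ℝ × ℝ,
      |ldisc ((u.1, √α * u.2), (v.1, √α * v.2)) (c.1, √α * c.2) R - π * R ^ 2 / (√α * |u.1 * v.2 - u.2 * v.1|)| ≤ C * R ^ (5 / 9 + ε) := by
  have huv' : fdet (u, v) = u.1 * v.2 - u.2 * v.1 := rfl
  have hdl0 : 0 < df (dl (u, v)) := by
    have h1 : df (dl (u, v)) = fdet (dl (u, v)) := rfl
    rw [h1, fdet_dl (by rw [huv']; exact huv.ne'), huv']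
    positivity
  filter_upwards [inv92 (ae92 h hdl0)] with α hα hα0 ε hε
  have h4 : 0 < √α := Real.sqrt_pos.2 hα0
  obtain ⟨D, hD⟩ : ∃ D : ℝ, D = u.1 * v.2 - u.2 * v.1 := ⟨_, rfl⟩
  have hD0 : 0 < D := by rwa [hD]
  obtain ⟨ab, hab⟩ : ∃ ab : (ℝ × ℝ) × (ℝ × ℝ), ab = ((u.1, √α * u.2), (v.1, √α * v.2)) := ⟨_, rfl⟩
  have e1 : fdet ab = √α * D := by
    rw [hab, hD]
    unfold fdet
    simp only
    ring
  have hab0 : fdet ab ≠ 0 := by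
    rw [e1]
    positivity
  have e2 : dl ab = st (1 / √α) (dl (u, v)) := by
    have f1 : dl ab = ((ab.2.2 / fdet ab, -ab.2.1 / fdet ab), (-ab.1.2 / fdet ab, ab.1.1 / fdet ab)) := rfl
    have f2 : dl (u, v) = ((v.2 / fdet (u, v), -v.1 / fdet (u, v)), (-u.2 / fdet (u, v), u.1 / fdet (u, v))) := rfl
    rw [f1, f2, e1, huv', ← hD, hab]
    unfold st
    simp only
    ext
    · simp only
      field_simp
    · simp only
      field_simp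
    · simp only
      field_simp
    · simp only
      field_simp
  have hd : fdet (st (1 / √α) (dl (u, v))) ≠ 0 := by
    rw [← e2, fdet_dl hab0]
    positivity
  obtain ⟨C, hC⟩ := frame92 hd (hα hα0) hε
  refine ⟨C, fun R hR c => ?_⟩
  have h5 := hC R hR ((dl ab).1.1 * c.1 + (dl ab).1.2 * (√α * c.2), (dl ab).2.1 * c.1 + (dl ab).2.2 * (√α * c.2))
  rw [← e2, area_lin isSupp_one.per (by rw [e2]; exact hd), fdet_dl hab0, Pool.Agent.Helper92.GC.area_one] at h5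
  have h6 := lcnt_eq isSupp_one.per hab0 (c.1, √α * c.2) R
  simp only at h6
  rw [← h6, ← ldisc_eq (by linarith)] at h5
  rw [← hab, ← hD]
  have e3 : |1 / fdet ab| * π * R ^ 2 = π * R ^ 2 / (√α * |D|) := by
    rw [e1, abs_div, abs_one, abs_mul, abs_of_pos h4]
    ring
  rwa [e3] at h5

/-- F: from the moments to the lattice points -/
theorem final (h : ∀ e : Pool.Agent.Helper60.LT.Fr, 0 < df e → ∀ η B : ℝ, 0 < η → 1 ≤ B → ∃ C : ℝ, 1 ≤ C ∧ ∀ (X : ℝ) (N : ℕ), 1 ≤ X → 1 ≤ N → X ^ (1 / 10 : ℝ) ≤ N →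
      (N : ℝ) ≤ X ^ (4 / 9 + 1 / 1000 : ℝ) → RI e B X (sqa N) ≤ ENNReal.ofReal (C * X ^ η * FR X N)) (u v : ℝ × ℝ) (huv : u.1 * v.2 - u.2 * v.1 ≠ 0) :
    ∀ᵐ α : ℝ, 0 < α → ∀ ε : ℝ, 0 < ε → ∃ C : ℝ, ∀ R : ℝ, 1 ≤ R → ∀ c : ℝ × ℝ,
      |(Nat.card {k : ℤ × ℤ // ((k.1 : ℝ) * u.1 + k.2 * v.1 - c.1) ^ 2 + α * ((k.1 : ℝ) * u.2 + k.2 * v.2 - c.2) ^ 2 ≤ R ^ 2} : ℝ) -
        π * R ^ 2 / (√α * |u.1 * v.2 - u.2 * v.1|)| ≤ C * R ^ (5 / 9 + ε) := by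
  have key : ∀ᵐ α : ℝ, 0 < α → ∀ ε : ℝ, 0 < ε → ∃ C : ℝ, ∀ R : ℝ, 1 ≤ R → ∀ c : ℝ × ℝ,
      |ldisc ((u.1, √α * u.2), (v.1, √α * v.2)) (c.1, √α * c.2) R - π * R ^ 2 / (√α * |u.1 * v.2 - u.2 * v.1|)| ≤ C * R ^ (5 / 9 + ε) := by
    rcases lt_or_gt_of_ne huv with h1 | h1
    · have h2 : 0 < v.1 * u.2 - v.2 * u.1 := by linarith
      filter_upwards [pos92 h v u h2] with α hα hα0 ε hε
      obtain ⟨C, hC⟩ := hα hα0 ε hε
      refine ⟨C, fun R hR c => ?_⟩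
      have h3 := hC R hR c
      have e1 : |v.1 * u.2 - v.2 * u.1| = |u.1 * v.2 - u.2 * v.1| := by
        rw [← abs_neg]
        congr 1
        ring
      rw [e1] at h3
      have hR0 : 0 ≤ R := by linarith
      rw [ldisc_eq hR0] at h3 ⊢
      have h4 := lcnt_swap ((u.1, √α * u.2), (v.1, √α * v.2)) (fun _ => 1) (c.1, √α * c.2) R
      simp only at h4
      rwa [h4] at h3
    · exact pos92 h u v h1
  filter_upwards [key] with α hα hα0 ε hε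
  obtain ⟨C, hC⟩ := hα hα0 ε hε
  refine ⟨C, fun R hR c => ?_⟩
  have h1 := hC R hR c
  have e1 : ldisc ((u.1, √α * u.2), (v.1, √α * v.2)) (c.1, √α * c.2) R =
      (Nat.card {k : ℤ × ℤ // ((k.1 : ℝ) * u.1 + k.2 * v.1 - c.1) ^ 2 + α * ((k.1 : ℝ) * u.2 + k.2 * v.2 - c.2) ^ 2 ≤ R ^ 2} : ℝ) := by
    unfold ldisc
    congr 1
    refine Nat.card_congr (Equiv.subtypeEquivRight fun k => ?_)
    simp only
    have e2 : ((k.1 : ℝ) * (√α * u.2) + (k.2 : ℝ) * (√α * v.2) - √α * c.2) ^ 2 = α * ((k.1 : ℝ) * u.2 + k.2 * v.2 - c.2) ^ 2 := by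
      have e3 : (k.1 : ℝ) * (√α * u.2) + (k.2 : ℝ) * (√α * v.2) - √α * c.2 = √α * ((k.1 : ℝ) * u.2 + k.2 * v.2 - c.2) := by ring
      rw [e3, mul_pow, Real.sq_sqrt hα0.le]
    rw [e2]
  rwa [e1] at h1

end Pool.Agent.Helper60.RT
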